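import Mathlib
import Pool.Agent.H82.CpDefs
import Pool.Agent.H82.BetaL

set_option autoImplicit false

namespace Pool.Agent.Results.MP_916210_gt.CompactNotSStable

open Pool.Agent.H82.CpDefs

theorem result : ∃ (X : Type) (_ : TopologicalSpace X), CompactSpace X ∧ T2Space X ∧ Infinite X ∧
    LStable X ∧ ¬ SStable X :=
  ⟨Ultrafilter ℕ, inferInstance, inferInstance, inferInstance,
    Infinite.of_injective _ (Ultrafilter.pure_injective (α := ℕ)),
    Pool.Agent.H82.BetaL.lstable, Pool.Agent.H82.BetaL.not_sstable⟩

end Pool.Agent.Results.MP_916210_gt.CompactNotSStable
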